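import Pool.Agent.H474.RZ.Stm

/-! Project RZ, assembly, part 1: the kernel of a combination. -/

set_option autoImplicit false

open Complex MeasureTheory Filter Topology

namespace Pool.Agent.H474.RZ

/-- the data of a combination of translates -/
structure Cmb where
  J : ℕ
  c : Fin J → ℝ
  mu : Fin J → ℝ
  y : Fin J → ℝ
  hmu : ∀ j, 0 < mu j

variable (K : Cmb)

/-- the combination `∑ c_j Ξ_{-μ_j}(z - y_j)` -/
noncomputable def Cmb.F (z : ℂ) : ℂ := ∑ j, (K.c j : ℂ) * XiM (K.mu j) (z - K.y j)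

/-- its multiplier `∑ c_j exp(-μ_j z² - i y_j z)` -/
noncomputable def Cmb.W (z : ℂ) : ℂ := ∑ j, (K.c j : ℂ) * cexp (-(K.mu j : ℂ) * z ^ 2 - I * K.y j * z)

/-- the real function -/
noncomputable def Cmb.R (x : ℝ) : ℝ := (K.F x).re

/-- the spectral density of `G_δ` -/
noncomputable def Cmb.psi (δ t : ℝ) : ℂ := PhC (t + al δ * I) * K.W (t + al δ * I)

lemma XiM_conj (μ x : ℝ) : (starRingEnd ℂ) (XiM μ x) = XiM μ x := by
  have h : (starRingEnd ℂ) (XiM μ x) = XiM μ (-x) := by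
    show (starRingEnd ℂ) (Pool.Agent.Helper242.KK.FT _ _) = Pool.Agent.Helper242.KK.FT _ _
    unfold Pool.Agent.Helper242.KK.FT
    rw [← integral_conj]
    refine integral_congr_ae (Eventually.of_forall fun t => ?_)
    simp only [map_mul, conj_ofReal, ← exp_conj, conj_I]
    congr 2
    ring
  rw [h]
  exact Pool.Agent.Helper242.KK.XiM_neg μ x

lemma XiM_im (μ x : ℝ) : (XiM μ x).im = 0 := by
  have h := congrArg Complex.im (XiM_conj μ x)
  rw [conj_im] at h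
  linarith

lemma F_real_term (μ x y : ℝ) : XiM μ ((x : ℂ) - y) = XiM μ ((x - y : ℝ) : ℂ) := by
  push_cast; rfl

lemma Cmb.F_im (x : ℝ) : (K.F x).im = 0 := by
  unfold Cmb.F
  rw [im_sum]
  refine Finset.sum_eq_zero fun j _ => ?_
  rw [F_real_term, im_ofReal_mul, XiM_im, mul_zero]

lemma Cmb.F_eq (x : ℝ) : K.F x = (K.R x : ℂ) := by
  apply Complex.ext
  · simp [Cmb.R]
  · simp [K.F_im x]

lemma Cmb.F_diff : Differentiable ℂ K.F := by
  unfold Cmb.F
  refine Differentiable.fun_sum fun j _ => ?_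
  refine (differentiable_const _).mul ?_
  exact (Pool.Agent.Helper242.KK.differentiable_XiM (K.hmu j).le).comp
    (differentiable_id.sub (differentiable_const _))

lemma Cmb.W_diff : Differentiable ℂ K.W := by
  unfold Cmb.W
  fun_prop

lemma Cmb.R_cont : Continuous K.R := by
  unfold Cmb.R
  exact continuous_re.comp (K.F_diff.continuous.comp continuous_ofReal)

/-- a common lower bound of the exponents -/
noncomputable def Cmb.m : ℝ := (1 + ∑ j, (K.mu j)⁻¹)⁻¹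

lemma Cmb.sum_nn : 0 ≤ ∑ j, (K.mu j)⁻¹ := Finset.sum_nonneg fun j _ => (inv_pos.2 (K.hmu j)).le

lemma Cmb.m_pos : 0 < K.m := by
  unfold Cmb.m
  have := K.sum_nn
  positivity

lemma Cmb.m_le (j : Fin K.J) : K.m ≤ K.mu j := by
  unfold Cmb.m
  have h1 : (K.mu j)⁻¹ ≤ 1 + ∑ j, (K.mu j)⁻¹ := by
    have := Finset.single_le_sum (f := fun j => (K.mu j)⁻¹) (fun i _ => (inv_pos.2 (K.hmu i)).le)
      (Finset.mem_univ j)
    linarith
  have h2 : 0 < (K.mu j)⁻¹ := inv_pos.2 (K.hmu j)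
  calc (1 + ∑ j, (K.mu j)⁻¹)⁻¹ ≤ ((K.mu j)⁻¹)⁻¹ := inv_anti₀ h2 h1
    _ = K.mu j := inv_inv _

/-- the constant in the upper bound of the multiplier -/
noncomputable def Cmb.B : ℝ := ∑ j, |K.c j| * Real.exp (K.mu j + |K.y j|)

lemma Cmb.B_nn : 0 ≤ K.B := Finset.sum_nonneg fun j _ => by positivity

lemma norm_term (μ y t a : ℝ) : ‖cexp (-(μ : ℂ) * (t + a * I) ^ 2 - I * y * (t + a * I))‖ =
    Real.exp (-μ * t ^ 2 + μ * a ^ 2 + y * a) := by
  rw [Complex.norm_exp]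
  congr 1
  simp [pow_two, Complex.mul_re, Complex.mul_im]
  ring

lemma al_mem {δ : ℝ} (h0 : 0 ≤ δ) (h1 : δ ≤ Real.pi / 4) : 0 ≤ al δ ∧ al δ ≤ 1 := by
  unfold al
  have := Real.pi_le_four
  constructor <;> linarith

lemma Cmb.W_le {δ : ℝ} (h0 : 0 ≤ δ) (h1 : δ ≤ Real.pi / 4) (t : ℝ) :
    ‖K.W (t + al δ * I)‖ ≤ K.B * Real.exp (-K.m * t ^ 2) := by
  obtain ⟨ha0, ha1⟩ := al_mem h0 h1
  unfold Cmb.W Cmb.B
  rw [Finset.sum_mul]
  refine (norm_sum_le _ _).trans (Finset.sum_le_sum fun j _ => ?_)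
  rw [norm_mul, norm_term, norm_real, Real.norm_eq_abs, mul_assoc, ← Real.exp_add]
  refine mul_le_mul_of_nonneg_left (Real.exp_le_exp.2 ?_) (abs_nonneg _)
  have h2 := mul_le_mul_of_nonneg_right (K.m_le j) (sq_nonneg t)
  have h3 : K.mu j * al δ ^ 2 ≤ K.mu j * 1 :=
    mul_le_mul_of_nonneg_left (by nlinarith) (K.hmu j).le
  have h4 : K.y j * al δ ≤ |K.y j| := by
    calc K.y j * al δ ≤ |K.y j| * al δ := mul_le_mul_of_nonneg_right (le_abs_self _) ha0
      _ ≤ |K.y j| * 1 := mul_le_mul_of_nonneg_left ha1 (abs_nonneg _)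
      _ = _ := mul_one _
  linarith

section
variable (hR : S_REP)
include hR

lemma term_integrable {μ δ : ℝ} (hμ : 0 ≤ μ) (h0 : 0 < δ) (h1 : δ ≤ Real.pi / 4) (x : ℝ) :
    Integrable (fun t : ℝ => PhC (t + al δ * I) * cexp (-(μ : ℂ) * (t + al δ * I) ^ 2) *
      cexp (I * x * t)) := by
  obtain ⟨hc, ⟨C, hC⟩, -⟩ := hR μ δ hμ h0 h1
  obtain ⟨ha0, ha1⟩ := al_mem h0.le h1
  have hi : Integrable (fun t : ℝ => (C * Real.exp μ) * Real.exp (-1 * t ^ 2)) :=
    (integrable_exp_neg_mul_sq one_pos).const_mul _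
  refine Integrable.mono' hi ?_ (Eventually.of_forall fun t => ?_)
  · refine Continuous.aestronglyMeasurable ?_
    refine (hc.mul ?_).mul (by fun_prop)
    fun_prop
  · rw [norm_mul, norm_mul]
    have e1 : ‖cexp (I * x * t)‖ = 1 := by
      rw [show I * (x : ℂ) * t = ((x * t : ℝ) : ℂ) * I by push_cast; ring, norm_exp_ofReal_mul_I]
    have e2 : ‖cexp (-(μ : ℂ) * (t + al δ * I) ^ 2)‖ ≤ Real.exp μ := by
      have := norm_term μ 0 t (al δ)
      rw [ofReal_zero, mul_zero, zero_mul, sub_zero] at this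
      rw [this]
      refine Real.exp_le_exp.2 ?_
      have h2 : μ * al δ ^ 2 ≤ μ * 1 := mul_le_mul_of_nonneg_left (by nlinarith) hμ
      nlinarith [mul_nonneg hμ (sq_nonneg t)]
    rw [e1, mul_one]
    have h3 := hC t
    calc ‖PhC (t + al δ * I)‖ * ‖cexp (-(μ : ℂ) * (t + al δ * I) ^ 2)‖
        ≤ (C * Real.exp (-t ^ 2)) * Real.exp μ :=
          mul_le_mul h3 e2 (norm_nonneg _) ((norm_nonneg _).trans h3)
      _ = (C * Real.exp μ) * Real.exp (-1 * t ^ 2) := by ring_nf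

lemma Cmb.rep {δ : ℝ} (h0 : 0 < δ) (h1 : δ ≤ Real.pi / 4) (x : ℝ) :
    (Real.exp (al δ * x) : ℂ) * K.F x = ∫ t : ℝ, K.psi δ t * cexp (I * x * t) := by
  have key : ∀ j, (Real.exp (al δ * x) : ℂ) * ((K.c j : ℂ) * XiM (K.mu j) ((x : ℂ) - K.y j)) =
      ∫ t : ℝ, (K.c j : ℂ) * (Real.exp (al δ * K.y j) : ℂ) *
        (PhC (t + al δ * I) * cexp (-(K.mu j : ℂ) * (t + al δ * I) ^ 2) *
          cexp (I * (x - K.y j : ℝ) * t)) := by
    intro j
    rw [integral_const_mul, ← (hR (K.mu j) δ (K.hmu j).le h0 h1).2.2 (x - K.y j), F_real_term]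
    have e : Real.exp (al δ * x) = Real.exp (al δ * K.y j) * Real.exp (al δ * (x - K.y j)) := by
      rw [← Real.exp_add]; congr 1; ring
    rw [e]
    push_cast
    ring
  unfold Cmb.F
  rw [Finset.mul_sum]
  simp_rw [key]
  rw [← integral_finsetSum _ fun j _ => (term_integrable hR (K.hmu j).le h0 h1 _).const_mul _]
  refine integral_congr_ae (Eventually.of_forall fun t => ?_)
  simp only [Cmb.psi, Cmb.W]
  rw [Finset.mul_sum, Finset.sum_mul]
  refine Finset.sum_congr rfl fun j _ => ?_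
  have e1 : cexp (-(K.mu j : ℂ) * (t + al δ * I) ^ 2 - I * K.y j * (t + al δ * I)) * cexp (I * x * t) =
      (Real.exp (al δ * K.y j) : ℂ) * (cexp (-(K.mu j : ℂ) * (t + al δ * I) ^ 2) *
          cexp (I * (x - K.y j : ℝ) * t)) := by
    rw [ofReal_exp, ← Complex.exp_add, ← Complex.exp_add, ← Complex.exp_add]
    congr 1
    push_cast
    have hI : I * I = -1 := I_mul_I
    linear_combination (-(K.y j : ℂ) * al δ) * hI
  calc (K.c j : ℂ) * (Real.exp (al δ * K.y j) : ℂ) *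
        (PhC (t + al δ * I) * cexp (-(K.mu j : ℂ) * (t + al δ * I) ^ 2) *
          cexp (I * (x - K.y j : ℝ) * t))
      = PhC (t + al δ * I) * (K.c j : ℂ) * ((Real.exp (al δ * K.y j) : ℂ) *
        (cexp (-(K.mu j : ℂ) * (t + al δ * I) ^ 2) * cexp (I * (x - K.y j : ℝ) * t))) := by ring
    _ = _ := by rw [← e1]; ring

lemma Cmb.psi_cont {δ : ℝ} (h0 : 0 < δ) (h1 : δ ≤ Real.pi / 4) : Continuous (K.psi δ) := by
  unfold Cmb.psi
  refine (hR 0 δ le_rfl h0 h1).1.mul ?_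
  exact K.W_diff.continuous.comp (by fun_prop)

lemma Cmb.psi_bd {δ : ℝ} (h0 : 0 < δ) (h1 : δ ≤ Real.pi / 4) :
    ∃ C : ℝ, 0 ≤ C ∧ ∀ t, ‖K.psi δ t‖ ≤ C * Real.exp (-1 * t ^ 2) := by
  obtain ⟨C, hC⟩ := (hR 0 δ le_rfl h0 h1).2.1
  have hC0 : 0 ≤ C := by
    have := (norm_nonneg _).trans (hC 0)
    simpa using this
  refine ⟨C * K.B, mul_nonneg hC0 K.B_nn, fun t => ?_⟩
  unfold Cmb.psi
  rw [norm_mul]
  have h2 : ‖K.W (t + al δ * I)‖ ≤ K.B := by
    refine (K.W_le h0.le h1 t).trans ?_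
    have : Real.exp (-K.m * t ^ 2) ≤ 1 := by
      rw [Real.exp_le_one_iff]
      nlinarith [K.m_pos, sq_nonneg t]
    calc K.B * Real.exp (-K.m * t ^ 2) ≤ K.B * 1 := mul_le_mul_of_nonneg_left this K.B_nn
      _ = K.B := mul_one _
  have h3 := hC t
  calc ‖PhC (t + al δ * I)‖ * ‖K.W (t + al δ * I)‖ ≤ (C * Real.exp (-t ^ 2)) * K.B :=
        mul_le_mul h3 h2 (norm_nonneg _) ((norm_nonneg _).trans h3)
    _ = _ := by ring_nf

lemma Cmb.psi_int {δ : ℝ} (h0 : 0 < δ) (h1 : δ ≤ Real.pi / 4) : Integrable (K.psi δ) := by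
  obtain ⟨C, hC0, hC⟩ := K.psi_bd hR h0 h1
  exact Integrable.mono' ((integrable_exp_neg_mul_sq one_pos).const_mul C)
    (K.psi_cont hR h0 h1).aestronglyMeasurable (Eventually.of_forall hC)

lemma Cmb.psi_sq_int {δ : ℝ} (h0 : 0 < δ) (h1 : δ ≤ Real.pi / 4) :
    Integrable (fun t => ‖K.psi δ t‖ ^ 2) := by
  obtain ⟨C, hC0, hC⟩ := K.psi_bd hR h0 h1
  refine Integrable.mono' ((integrable_exp_neg_mul_sq one_pos).const_mul (C ^ 2))
    ((K.psi_cont hR h0 h1).norm.pow 2).aestronglyMeasurable (Eventually.of_forall fun t => ?_)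
  rw [Real.norm_eq_abs, abs_of_nonneg (by positivity)]
  have h2 : Real.exp (-1 * t ^ 2) ≤ 1 := by
    rw [Real.exp_le_one_iff]; nlinarith [sq_nonneg t]
  calc ‖K.psi δ t‖ ^ 2 ≤ (C * Real.exp (-1 * t ^ 2)) ^ 2 := by
        gcongr
        exact hC t
    _ = C ^ 2 * (Real.exp (-1 * t ^ 2) * Real.exp (-1 * t ^ 2)) := by ring
    _ ≤ C ^ 2 * (Real.exp (-1 * t ^ 2) * 1) := by
        gcongr
    _ = _ := by ring

/-- boundedness of `e^{αx} F(x)` -/
lemma Cmb.bdd {δ : ℝ} (h0 : 0 < δ) (h1 : δ ≤ Real.pi / 4) :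
    ∃ C : ℝ, 0 ≤ C ∧ ∀ x : ℝ, Real.exp (al δ * x) * ‖K.F x‖ ≤ C := by
  refine ⟨∫ t, ‖K.psi δ t‖, integral_nonneg fun _ => norm_nonneg _, fun x => ?_⟩
  have h := K.rep hR h0 h1 x
  have e : Real.exp (al δ * x) * ‖K.F x‖ = ‖(Real.exp (al δ * x) : ℂ) * K.F x‖ := by
    rw [norm_mul, norm_real, Real.norm_eq_abs, abs_of_pos (Real.exp_pos _)]
  rw [e, h]
  refine (norm_integral_le_integral_norm _).trans (le_of_eq ?_)
  refine integral_congr_ae (Eventually.of_forall fun t => ?_)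
  simp only [norm_mul]
  rw [show I * (x : ℂ) * t = ((x * t : ℝ) : ℂ) * I by push_cast; ring, norm_exp_ofReal_mul_I, mul_one]

end

end Pool.Agent.H474.RZ
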