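import Pool.Agent.H474.RZ.Asm1

/-! Project RZ, assembly, part 2: the hypotheses of the real variable argument. -/

set_option autoImplicit false

open Complex MeasureTheory Filter Topology

namespace Pool.Agent.H474.RZ

/-- weighted mean square of the kernel -/
def S_KW : Prop := ∃ C : ℝ, 0 < C ∧ ∀ δ H : ℝ, 0 < δ → δ ≤ Real.pi / 8 → 1 ≤ H →
    Integrable (fun t : ℝ => ‖PhC (t + al δ * I)‖ ^ 2 / (1 + (H * t) ^ 2)) ∧
    (∫ t : ℝ, ‖PhC (t + al δ * I)‖ ^ 2 / (1 + (H * t) ^ 2)) ≤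
      C * (H⁻¹ * δ ^ (-(9 / 2) : ℝ) + δ ^ (-(17 / 4) : ℝ))

variable (K : Cmb)

lemma al_pi4 : al (Real.pi / 4) = 0 := by unfold al; ring

lemma pi4_pos : 0 < Real.pi / 4 := by positivity

lemma tenth_le : (1 : ℝ) / 10 ≤ Real.pi / 8 := by have := Real.pi_gt_three; linarith

lemma Cmb.W_ne (hR : S_REP) (hne : ∃ x : ℝ, K.F x ≠ 0) : ∃ t : ℝ, K.W (t + (Real.pi / 4 : ℝ) * I) ≠ 0 := by
  by_contra hcon
  push Not at hcon
  have hW : ∀ z, K.W z = 0 := by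
    have han : AnalyticOnNhd ℂ K.W Set.univ := fun z _ => K.W_diff.analyticAt z
    set z0 : ℂ := (0 : ℝ) + (Real.pi / 4 : ℝ) * I with hz0
    have htend : Tendsto (fun t : ℝ => (t : ℂ) + (Real.pi / 4 : ℝ) * I) (𝓝[≠] 0) (𝓝[≠] z0) := by
      refine tendsto_nhdsWithin_iff.2 ⟨?_, ?_⟩
      · have hc : Continuous (fun t : ℝ => (t : ℂ) + (Real.pi / 4 : ℝ) * I) := by fun_prop
        exact (hc.tendsto 0).mono_left nhdsWithin_le_nhds
      · filter_upwards [self_mem_nhdsWithin] with t ht h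
        apply ht
        rw [hz0] at h
        have h2 := congrArg Complex.re h
        simpa using h2
    have hfr : ∃ᶠ z in 𝓝[≠] z0, K.W z = 0 :=
      htend.frequently (Filter.Eventually.frequently (Eventually.of_forall hcon))
    have := han.eqOn_zero_of_preconnected_of_frequently_eq_zero isPreconnected_univ
      (Set.mem_univ z0) hfr
    exact fun z => this (Set.mem_univ z)
  obtain ⟨x, hx⟩ := hne
  apply hx
  have h := K.rep hR pi4_pos le_rfl x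
  have h2 : (∫ t : ℝ, K.psi (Real.pi / 4) t * cexp (I * x * t)) = 0 := by
    rw [← integral_zero ℝ ℂ]
    refine integral_congr_ae (Eventually.of_forall fun t => ?_)
    simp only [Cmb.psi, hW, mul_zero, zero_mul]
  rw [h2, al_pi4] at h
  simpa using h

lemma Cmb.W_low (hR : S_REP) (hne : ∃ x : ℝ, K.F x ≠ 0) : ∃ t0 η c δ0 : ℝ, 0 < η ∧ 0 < c ∧ 0 < δ0 ∧
    ∀ t δ : ℝ, t0 ≤ t → t ≤ t0 + η → 0 < δ → δ ≤ δ0 → c ≤ ‖K.W (t + al δ * I)‖ := by
  obtain ⟨t1, ht1⟩ := K.W_ne hR hne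
  set z0 : ℂ := t1 + (Real.pi / 4 : ℝ) * I with hz0
  have hpos : 0 < ‖K.W z0‖ := norm_pos_iff.2 ht1
  have hcont : ContinuousAt (fun z => ‖K.W z‖) z0 := K.W_diff.continuous.norm.continuousAt
  have hev : ∀ᶠ z in 𝓝 z0, ‖K.W z0‖ / 2 < ‖K.W z‖ := by
    refine hcont.eventually (lt_mem_nhds ?_)
    show ‖K.W z0‖ / 2 < ‖K.W z0‖
    linarith
  obtain ⟨r, hr, hball⟩ := Metric.eventually_nhds_iff.1 hev
  refine ⟨t1, r / 4, ‖K.W z0‖ / 2, r / 4, by positivity, by positivity, by positivity, ?_⟩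
  intro t δ h1 h2 h3 h4
  refine (hball ?_).le
  rw [dist_eq_norm]
  have e : (t : ℂ) + al δ * I - z0 = ((t - t1 : ℝ) : ℂ) + ((-δ : ℝ) : ℂ) * I := by
    rw [hz0]; unfold al; push_cast; ring
  rw [e]
  refine (norm_add_le _ _).trans_lt ?_
  rw [norm_mul, norm_I, mul_one, norm_real, norm_real, Real.norm_eq_abs, Real.norm_eq_abs,
    abs_of_nonneg (by linarith), abs_neg, abs_of_pos h3]
  linarith

lemma GG_norm (δ x : ℝ) : ‖((GG K.R δ x : ℝ) : ℂ)‖ = Real.exp (al δ * x) * ‖K.F x‖ := by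
  rw [norm_real, Real.norm_eq_abs]
  unfold GG
  rw [abs_mul, abs_of_pos (Real.exp_pos _), K.F_eq x, norm_real, Real.norm_eq_abs]

lemma GG_rep (hR : S_REP) {δ : ℝ} (h0 : 0 < δ) (h1 : δ ≤ Real.pi / 4) (x : ℝ) :
    ((GG K.R δ x : ℝ) : ℂ) = ∫ t : ℝ, K.psi δ t * cexp (I * x * t) := by
  rw [← K.rep hR h0 h1 x, K.F_eq x]
  unfold GG
  push_cast
  rfl

lemma GG_cont (δ : ℝ) : Continuous (GG K.R δ) := by
  unfold GG
  exact (by fun_prop : Continuous fun x : ℝ => Real.exp (al δ * x)).mul K.R_cont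

lemma exp_neg_le (u : ℝ) (hu : 0 ≤ u) : Real.exp (-u) ≤ 2 * (1 + u ^ 2)⁻¹ := by
  have h := Real.quadratic_le_exp_of_nonneg hu
  rw [Real.exp_neg]
  have h2 : (1 + u ^ 2) / 2 ≤ Real.exp u := by nlinarith
  calc (Real.exp u)⁻¹ ≤ ((1 + u ^ 2) / 2)⁻¹ := inv_anti₀ (by positivity) h2
    _ = 2 * (1 + u ^ 2)⁻¹ := by field_simp

lemma GG_int (hR : S_REP) {δ : ℝ} (h0 : 0 < δ) (h1 : δ ≤ 1 / 10) : Integrable (GG K.R δ) := by
  have hpi := Real.pi_gt_three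
  obtain ⟨C1, hC1, hb1⟩ := K.bdd hR (δ := δ / 2) (by positivity) (by linarith)
  obtain ⟨C2, hC2, hb2⟩ := K.bdd hR (δ := Real.pi / 4) pi4_pos le_rfl
  have hint : Integrable (fun x : ℝ => (C1 + C2) * (2 * (1 + (δ / 2 * x) ^ 2)⁻¹)) := by
    have := (integrable_inv_one_add_sq.comp_mul_left' (R := δ / 2) (by positivity)).const_mul 2
    exact this.const_mul _
  refine Integrable.mono' hint (GG_cont K δ).aestronglyMeasurable (Eventually.of_forall fun x => ?_)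
  have e1 : ‖GG K.R δ x‖ = Real.exp (al δ * x) * ‖K.F x‖ := by
    rw [← GG_norm, norm_real]
  rw [e1]
  have key : Real.exp (al δ * x) * ‖K.F x‖ ≤ (C1 + C2) * Real.exp (-(δ / 2 * |x|)) := by
    rcases le_total 0 x with hx | hx
    · have h2 := hb1 x
      have e2 : Real.exp (al δ * x) = Real.exp (al (δ / 2) * x) * Real.exp (-(δ / 2 * |x|)) := by
        rw [← Real.exp_add, abs_of_nonneg hx]
        congr 1
        unfold al; ring
      rw [e2]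
      have h3 := Real.exp_pos (-(δ / 2 * |x|))
      nlinarith
    · have h2 := hb2 x
      rw [al_pi4, zero_mul, Real.exp_zero, one_mul] at h2
      have e2 : Real.exp (al δ * x) ≤ Real.exp (-(δ / 2 * |x|)) := by
        refine Real.exp_le_exp.2 ?_
        rw [abs_of_nonpos hx]
        unfold al
        nlinarith
      have h3 := Real.exp_pos (-(δ / 2 * |x|))
      calc Real.exp (al δ * x) * ‖K.F x‖ ≤ Real.exp (-(δ / 2 * |x|)) * C2 :=
            mul_le_mul e2 h2 (norm_nonneg _) h3.le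
        _ ≤ _ := by nlinarith
  refine key.trans ?_
  have h4 := exp_neg_le (δ / 2 * |x|) (by positivity)
  have e5 : (δ / 2 * |x|) ^ 2 = (δ / 2 * x) ^ 2 := by rw [mul_pow, mul_pow, sq_abs]
  rw [e5] at h4
  exact mul_le_mul_of_nonneg_left h4 (by positivity)

/-- lower bound of the spectral mass -/
lemma Cmb.psi_low (hR : S_REP) (hWL : S_WL) (hne : ∃ x : ℝ, K.F x ≠ 0) : ∃ c δ0 : ℝ, 0 < c ∧ 0 < δ0 ∧
    ∀ δ, 0 < δ → δ ≤ δ0 → c * δ ^ (-(9 / 2) : ℝ) ≤ ∫ t, ‖K.psi δ t‖ ^ 2 := by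
  obtain ⟨t0, η, c, δ1, hη, hc, hδ1, hlow⟩ := K.W_low hR hne
  obtain ⟨c2, δ2, hc2, hδ2, hl2⟩ := hWL t0 η hη
  refine ⟨c ^ 2 * c2, min (min δ1 δ2) (1 / 10), by positivity, by positivity, fun δ h0 h1 => ?_⟩
  have hpi := Real.pi_gt_three
  have hd1 : δ ≤ δ1 := h1.trans ((min_le_left _ _).trans (min_le_left _ _))
  have hd2 : δ ≤ δ2 := h1.trans ((min_le_left _ _).trans (min_le_right _ _))
  have hd3 : δ ≤ Real.pi / 4 := by
    have : δ ≤ 1 / 10 := h1.trans (min_le_right _ _)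
    linarith
  have hle : t0 ≤ t0 + η := by linarith
  have hcP := (hR 0 δ le_rfl h0 hd3).1
  have hcpsi := K.psi_cont hR h0 hd3
  have e1 : (∫ t in t0..(t0 + η), ‖K.psi δ t‖ ^ 2) ≤ ∫ t, ‖K.psi δ t‖ ^ 2 := by
    rw [intervalIntegral.integral_of_le hle]
    exact setIntegral_le_integral (K.psi_sq_int hR h0 hd3)
      (Eventually.of_forall fun t => by positivity)
  have e2 : c ^ 2 * (∫ t in t0..(t0 + η), ‖PhC (t + al δ * I)‖ ^ 2) ≤
      ∫ t in t0..(t0 + η), ‖K.psi δ t‖ ^ 2 := by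
    rw [← intervalIntegral.integral_const_mul]
    refine intervalIntegral.integral_mono_on hle ?_ ?_ ?_
    · exact (continuous_const.mul (hcP.norm.pow 2)).intervalIntegrable _ _
    · exact (hcpsi.norm.pow 2).intervalIntegrable _ _
    · intro t ht
      have h5 := hlow t δ ht.1 ht.2 h0 hd1
      unfold Cmb.psi
      rw [norm_mul, mul_pow, mul_comm]
      gcongr
  calc c ^ 2 * c2 * δ ^ (-(9 / 2) : ℝ) = c ^ 2 * (c2 * δ ^ (-(9 / 2) : ℝ)) := by ring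
    _ ≤ c ^ 2 * (∫ t in t0..(t0 + η), ‖PhC (t + al δ * I)‖ ^ 2) := by
        gcongr
        exact hl2 δ h0 hd2
    _ ≤ _ := e2.trans e1

lemma exp_gauss_le {m : ℝ} (hm : 0 < m) (t : ℝ) :
    Real.exp (-m * t ^ 2) ^ 2 ≤ (1 + m⁻¹) * (1 + (1 * t) ^ 2)⁻¹ := by
  have h1 : Real.exp (-m * t ^ 2) ^ 2 ≤ Real.exp (-m * t ^ 2) := by
    have h2 : Real.exp (-m * t ^ 2) ≤ 1 := by
      rw [Real.exp_le_one_iff]
      nlinarith [sq_nonneg t]
    have h3 := Real.exp_pos (-m * t ^ 2)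
    nlinarith
  refine h1.trans ?_
  have h4 := Real.add_one_le_exp (m * t ^ 2)
  have h5 : Real.exp (-m * t ^ 2) = (Real.exp (m * t ^ 2))⁻¹ := by rw [← Real.exp_neg]; ring_nf
  rw [h5, ← div_eq_mul_inv, inv_eq_one_div, div_le_div_iff₀ (Real.exp_pos _) (by positivity)]
  have h6 : 0 ≤ t ^ 2 := sq_nonneg t
  have h7 : (1 + m⁻¹) * (m * t ^ 2 + 1) ≤ (1 + m⁻¹) * Real.exp (m * t ^ 2) :=
    mul_le_mul_of_nonneg_left h4 (by positivity)
  have h8 : (1 + m⁻¹) * (m * t ^ 2 + 1) = m * t ^ 2 + 1 + t ^ 2 + m⁻¹ := by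
    field_simp
    ring
  have h9 : 0 < m⁻¹ := inv_pos.2 hm
  nlinarith [mul_nonneg hm.le h6]

/-- upper bound of the spectral mass -/
lemma Cmb.psi_up (hKW : S_KW) : ∃ C : ℝ, 0 < C ∧ ∀ δ, 0 < δ → δ ≤ 1 / 10 →
    (∫ t, ‖K.psi δ t‖ ^ 2) ≤ C * δ ^ (-(9 / 2) : ℝ) := by
  obtain ⟨C, hC, h⟩ := hKW
  have hm := K.m_pos
  have hB := K.B_nn
  refine ⟨K.B ^ 2 * (1 + K.m⁻¹) * (2 * C) + 1, by positivity, fun δ h0 h1 => ?_⟩
  have hpi := Real.pi_gt_three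
  obtain ⟨hi, hb⟩ := h δ 1 h0 (h1.trans tenth_le) le_rfl
  have hd3 : δ ≤ Real.pi / 4 := by linarith
  have e1 : (∫ t, ‖K.psi δ t‖ ^ 2) ≤ ∫ t : ℝ, (K.B ^ 2 * (1 + K.m⁻¹)) *
      (‖PhC (t + al δ * I)‖ ^ 2 / (1 + (1 * t) ^ 2)) := by
    refine integral_mono_of_nonneg (Eventually.of_forall fun t => by positivity) (hi.const_mul _)
      (Eventually.of_forall fun t => ?_)
    simp only [Cmb.psi]
    rw [norm_mul, mul_pow]
    have h2 : ‖K.W (t + al δ * I)‖ ^ 2 ≤ K.B ^ 2 * ((1 + K.m⁻¹) * (1 + (1 * t) ^ 2)⁻¹) := by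
      calc ‖K.W (t + al δ * I)‖ ^ 2 ≤ (K.B * Real.exp (-K.m * t ^ 2)) ^ 2 := by
            gcongr
            exact K.W_le h0.le hd3 t
        _ = K.B ^ 2 * Real.exp (-K.m * t ^ 2) ^ 2 := by ring
        _ ≤ _ := by
            gcongr
            exact exp_gauss_le hm t
    calc ‖PhC (t + al δ * I)‖ ^ 2 * ‖K.W (t + al δ * I)‖ ^ 2
        ≤ ‖PhC (t + al δ * I)‖ ^ 2 * (K.B ^ 2 * ((1 + K.m⁻¹) * (1 + (1 * t) ^ 2)⁻¹)) := by gcongr
      _ = _ := by rw [div_eq_mul_inv]; ring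
  rw [integral_const_mul] at e1
  refine e1.trans ?_
  have hδ2 : δ ^ (-(17 / 4) : ℝ) ≤ δ ^ (-(9 / 2) : ℝ) :=
    Real.rpow_le_rpow_of_exponent_ge h0 (by linarith) (by norm_num)
  have hp : 0 < δ ^ (-(9 / 2) : ℝ) := Real.rpow_pos_of_pos h0 _
  have hb2 : (∫ t : ℝ, ‖PhC (t + al δ * I)‖ ^ 2 / (1 + (1 * t) ^ 2)) ≤
      (2 * C) * δ ^ (-(9 / 2) : ℝ) := by
    refine hb.trans ?_
    rw [inv_one, one_mul]
    nlinarith
  calc K.B ^ 2 * (1 + K.m⁻¹) * (∫ t : ℝ, ‖PhC (t + al δ * I)‖ ^ 2 / (1 + (1 * t) ^ 2))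
      ≤ K.B ^ 2 * (1 + K.m⁻¹) * ((2 * C) * δ ^ (-(9 / 2) : ℝ)) := by gcongr
    _ ≤ _ := by nlinarith

lemma min_le_w (H t : ℝ) (hH : 1 ≤ H) : min (H ^ 2) (4 / t ^ 2) ≤ 8 * H ^ 2 * (1 + (H * t) ^ 2)⁻¹ := by
  have hHp : 0 < H := by linarith
  have hq : 0 < 1 + (H * t) ^ 2 := by positivity
  rw [← div_eq_mul_inv, le_div_iff₀ hq]
  rcases le_total ((H * t) ^ 2) 1 with h | h
  · calc min (H ^ 2) (4 / t ^ 2) * (1 + (H * t) ^ 2) ≤ H ^ 2 * (1 + (H * t) ^ 2) := by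
          gcongr
          exact min_le_left _ _
      _ ≤ _ := by nlinarith [sq_nonneg H]
  · have ht : 0 < t ^ 2 := by
      by_contra hcon
      have h0 : t ^ 2 = 0 := le_antisymm (not_lt.1 hcon) (sq_nonneg t)
      rw [mul_pow, h0, mul_zero] at h
      linarith
    calc min (H ^ 2) (4 / t ^ 2) * (1 + (H * t) ^ 2) ≤ 4 / t ^ 2 * (1 + (H * t) ^ 2) := by
          gcongr
          exact min_le_right _ _
      _ ≤ 4 / t ^ 2 * (2 * (H * t) ^ 2) := by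
          gcongr
          linarith
      _ = 8 * H ^ 2 := by
          rw [mul_pow]
          have ht' : t ^ 2 ≠ 0 := ht.ne'
          calc 4 / t ^ 2 * (2 * (H ^ 2 * t ^ 2)) = 8 * H ^ 2 * (t ^ 2 / t ^ 2) := by ring
            _ = _ := by rw [div_self ht', mul_one]

/-- the spectral mass with the weight of the sliding integrals -/
lemma Cmb.psi_sl (hR : S_REP) (hKW : S_KW) : ∃ C : ℝ, 0 < C ∧ ∀ δ H, 0 < δ → δ ≤ 1 / 10 → 1 ≤ H →
    H ≤ δ ^ (-(1 / 4) : ℝ) →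
    (∫ t, ‖K.psi δ t‖ ^ 2 * min (H ^ 2) (4 / t ^ 2)) ≤ C * H * δ ^ (-(9 / 2) : ℝ) := by
  obtain ⟨C, hC, h⟩ := hKW
  have hB := K.B_nn
  refine ⟨K.B ^ 2 * 8 * (2 * C) + 1, by positivity, fun δ H h0 h1 hH hH2 => ?_⟩
  have hpi := Real.pi_gt_three
  have hHp : 0 < H := by linarith
  obtain ⟨hi, hb⟩ := h δ H h0 (h1.trans tenth_le) hH
  have hd3 : δ ≤ Real.pi / 4 := by linarith
  have e1 : (∫ t, ‖K.psi δ t‖ ^ 2 * min (H ^ 2) (4 / t ^ 2)) ≤ ∫ t : ℝ, (K.B ^ 2 * 8 * H ^ 2) *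
      (‖PhC (t + al δ * I)‖ ^ 2 / (1 + (H * t) ^ 2)) := by
    refine integral_mono_of_nonneg (Eventually.of_forall fun t => ?_) (hi.const_mul _)
      (Eventually.of_forall fun t => ?_)
    · show (0 : ℝ) ≤ ‖K.psi δ t‖ ^ 2 * min (H ^ 2) (4 / t ^ 2)
      have : 0 ≤ min (H ^ 2) (4 / t ^ 2) := le_min (by positivity) (by positivity)
      positivity
    simp only [Cmb.psi]
    rw [norm_mul, mul_pow]
    have h2 : ‖K.W (t + al δ * I)‖ ^ 2 ≤ K.B ^ 2 := by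
      gcongr
      refine (K.W_le h0.le hd3 t).trans ?_
      have : Real.exp (-K.m * t ^ 2) ≤ 1 := by
        rw [Real.exp_le_one_iff]
        nlinarith [K.m_pos, sq_nonneg t]
      calc K.B * Real.exp (-K.m * t ^ 2) ≤ K.B * 1 := mul_le_mul_of_nonneg_left this hB
        _ = K.B := mul_one _
    have h3 := min_le_w H t hH
    have h4 : 0 ≤ min (H ^ 2) (4 / t ^ 2) := le_min (by positivity) (by positivity)
    calc ‖PhC (t + al δ * I)‖ ^ 2 * ‖K.W (t + al δ * I)‖ ^ 2 * min (H ^ 2) (4 / t ^ 2)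
        ≤ ‖PhC (t + al δ * I)‖ ^ 2 * K.B ^ 2 * (8 * H ^ 2 * (1 + (H * t) ^ 2)⁻¹) := by gcongr
      _ = _ := by rw [div_eq_mul_inv]; ring
  rw [integral_const_mul] at e1
  refine e1.trans ?_
  have hp : 0 < δ ^ (-(9 / 2) : ℝ) := Real.rpow_pos_of_pos h0 _
  have hδ2 : H ^ 2 * δ ^ (-(17 / 4) : ℝ) ≤ H * δ ^ (-(9 / 2) : ℝ) := by
    have e3 : δ ^ (-(9 / 2) : ℝ) = δ ^ (-(1 / 4) : ℝ) * δ ^ (-(17 / 4) : ℝ) := by
      rw [← Real.rpow_add h0]; norm_num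
    have hp2 : 0 < δ ^ (-(17 / 4) : ℝ) := Real.rpow_pos_of_pos h0 _
    rw [e3]
    calc H ^ 2 * δ ^ (-(17 / 4) : ℝ) = H * (H * δ ^ (-(17 / 4) : ℝ)) := by ring
      _ ≤ H * (δ ^ (-(1 / 4) : ℝ) * δ ^ (-(17 / 4) : ℝ)) := by gcongr
  calc K.B ^ 2 * 8 * H ^ 2 * (∫ t : ℝ, ‖PhC (t + al δ * I)‖ ^ 2 / (1 + (H * t) ^ 2))
      ≤ K.B ^ 2 * 8 * H ^ 2 * (C * (H⁻¹ * δ ^ (-(9 / 2) : ℝ) + δ ^ (-(17 / 4) : ℝ))) := by gcongr
    _ = K.B ^ 2 * 8 * C * (H * δ ^ (-(9 / 2) : ℝ) + H ^ 2 * δ ^ (-(17 / 4) : ℝ)) := by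
        field_simp
    _ ≤ K.B ^ 2 * 8 * C * (H * δ ^ (-(9 / 2) : ℝ) + H * δ ^ (-(9 / 2) : ℝ)) := by gcongr
    _ = K.B ^ 2 * 8 * (2 * C) * H * δ ^ (-(9 / 2) : ℝ) := by ring
    _ ≤ _ := by
        have : 0 ≤ H * δ ^ (-(9 / 2) : ℝ) := by positivity
        nlinarith

/-- fourth power -/
lemma Cmb.four (hF4 : S_F4) : ∃ C : ℝ, 0 < C ∧ ∀ δ, 0 < δ → δ ≤ 1 / 10 →
    Integrable (fun x => GG K.R δ x ^ 4) ∧
    (∫ x, GG K.R δ x ^ 4) ≤ C * (δ ^ 8)⁻¹ * Real.log (1 / δ) := by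
  choose Cj hCj hj using fun j => hF4 (K.mu j) (K.hmu j)
  refine ⟨(K.J : ℝ) ^ 3 * (∑ j, (|K.c j| * Real.exp |K.y j|) ^ 4 * Cj j) + 1, ?_, fun δ h0 h1 => ?_⟩
  · have : 0 ≤ ∑ j, (|K.c j| * Real.exp |K.y j|) ^ 4 * Cj j :=
      Finset.sum_nonneg fun j _ => mul_nonneg (by positivity) (hCj j).le
    positivity
  have hpi := Real.pi_gt_three
  obtain ⟨ha0, ha1⟩ := al_mem h0.le (by linarith : δ ≤ Real.pi / 4)
  set a : Fin K.J → ℝ → ℝ := fun j x => (Real.exp (al δ * x) * ‖XiM (K.mu j) x‖) ^ 4 with ha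
  have hai : ∀ j, Integrable (a j) := fun j => (hj j δ h0 h1).1
  have hab : ∀ j, (∫ x, a j x) ≤ Cj j * (δ ^ 8)⁻¹ * Real.log (1 / δ) := fun j => (hj j δ h0 h1).2
  have hL : 0 ≤ Real.log (1 / δ) := Real.log_nonneg (by rw [le_div_iff₀ h0]; linarith)
  have hpt : ∀ x, GG K.R δ x ^ 4 ≤ (K.J : ℝ) ^ 3 *
      ∑ j, (|K.c j| * Real.exp |K.y j|) ^ 4 * a j (x - K.y j) := by
    intro x
    have e1 : GG K.R δ x ^ 4 = (Real.exp (al δ * x) * ‖K.F x‖) ^ 4 := by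
      rw [← GG_norm, norm_real, Real.norm_eq_abs]
      have : Even 4 := by decide
      exact (this.pow_abs _).symm
    set b : Fin K.J → ℝ := fun j => |K.c j| * Real.exp |K.y j| *
      (Real.exp (al δ * (x - K.y j)) * ‖XiM (K.mu j) ((x - K.y j : ℝ) : ℂ)‖) with hb
    have hb0 : ∀ j, 0 ≤ b j := fun j => by simp only [hb]; positivity
    have e2 : Real.exp (al δ * x) * ‖K.F x‖ ≤ ∑ j, b j := by
      unfold Cmb.F
      calc Real.exp (al δ * x) * ‖∑ j, (K.c j : ℂ) * XiM (K.mu j) (x - K.y j)‖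
          ≤ Real.exp (al δ * x) * ∑ j, ‖(K.c j : ℂ) * XiM (K.mu j) (x - K.y j)‖ := by
            gcongr
            exact norm_sum_le _ _
        _ = ∑ j, Real.exp (al δ * x) * ‖(K.c j : ℂ) * XiM (K.mu j) (x - K.y j)‖ := by
            rw [Finset.mul_sum]
        _ ≤ ∑ j, b j := by
            refine Finset.sum_le_sum fun j _ => ?_
            rw [norm_mul, norm_real, Real.norm_eq_abs, F_real_term]
            simp only [hb]
            have e3 : Real.exp (al δ * x) = Real.exp (al δ * K.y j) * Real.exp (al δ * (x - K.y j)) := by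
              rw [← Real.exp_add]; congr 1; ring
            have e4 : Real.exp (al δ * K.y j) ≤ Real.exp |K.y j| := by
              refine Real.exp_le_exp.2 ?_
              calc al δ * K.y j ≤ al δ * |K.y j| := mul_le_mul_of_nonneg_left (le_abs_self _) ha0
                _ ≤ 1 * |K.y j| := mul_le_mul_of_nonneg_right ha1 (abs_nonneg _)
                _ = _ := one_mul _
            rw [e3]
            calc Real.exp (al δ * K.y j) * Real.exp (al δ * (x - K.y j)) *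
                  (|K.c j| * ‖XiM (K.mu j) ((x - K.y j : ℝ) : ℂ)‖)
                = |K.c j| * Real.exp (al δ * K.y j) *
                  (Real.exp (al δ * (x - K.y j)) * ‖XiM (K.mu j) ((x - K.y j : ℝ) : ℂ)‖) := by ring
              _ ≤ _ := by gcongr
    have e5 : (∑ j, b j) ^ 4 ≤ (K.J : ℝ) ^ 3 * ∑ j, b j ^ 4 := by
      have h2 := sq_sum_le_card_mul_sum_sq (s := (Finset.univ : Finset (Fin K.J))) (f := b)
      have h3 := sq_sum_le_card_mul_sum_sq (s := (Finset.univ : Finset (Fin K.J))) (f := fun j => b j ^ 2)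
      rw [Finset.card_univ, Fintype.card_fin] at h2 h3
      have h4 : 0 ≤ ∑ j, b j := Finset.sum_nonneg fun j _ => hb0 j
      have h5 : 0 ≤ ∑ j, b j ^ 2 := Finset.sum_nonneg fun j _ => sq_nonneg _
      calc (∑ j, b j) ^ 4 = ((∑ j, b j) ^ 2) ^ 2 := by ring
        _ ≤ ((K.J : ℝ) * ∑ j, b j ^ 2) ^ 2 := by gcongr
        _ = (K.J : ℝ) ^ 2 * (∑ j, b j ^ 2) ^ 2 := by ring
        _ ≤ (K.J : ℝ) ^ 2 * ((K.J : ℝ) * ∑ j, (b j ^ 2) ^ 2) := by gcongr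
        _ = (K.J : ℝ) ^ 3 * ∑ j, b j ^ 4 := by
            rw [← mul_assoc]
            congr 1
            refine Finset.sum_congr rfl fun j _ => by ring
    rw [e1]
    calc (Real.exp (al δ * x) * ‖K.F x‖) ^ 4 ≤ (∑ j, b j) ^ 4 := by gcongr
      _ ≤ (K.J : ℝ) ^ 3 * ∑ j, b j ^ 4 := e5
      _ = _ := by
          congr 1
          refine Finset.sum_congr rfl fun j _ => ?_
          simp only [hb, ha]
          rw [mul_pow]
  have hsumi : Integrable (fun x => (K.J : ℝ) ^ 3 *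
      ∑ j, (|K.c j| * Real.exp |K.y j|) ^ 4 * a j (x - K.y j)) := by
    refine Integrable.const_mul ?_ _
    refine integrable_finsetSum _ fun j _ => ?_
    exact ((hai j).comp_sub_right (K.y j)).const_mul _
  have hnn : ∀ x, 0 ≤ GG K.R δ x ^ 4 := fun x => by positivity
  have hint : Integrable (fun x => GG K.R δ x ^ 4) := by
    refine Integrable.mono' hsumi ((GG_cont K δ).pow 4).aestronglyMeasurable
      (Eventually.of_forall fun x => ?_)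
    rw [Real.norm_eq_abs, abs_of_nonneg (hnn x)]
    exact hpt x
  refine ⟨hint, ?_⟩
  calc (∫ x, GG K.R δ x ^ 4) ≤ ∫ x, (K.J : ℝ) ^ 3 *
      ∑ j, (|K.c j| * Real.exp |K.y j|) ^ 4 * a j (x - K.y j) := integral_mono hint hsumi hpt
    _ = (K.J : ℝ) ^ 3 * ∑ j, (|K.c j| * Real.exp |K.y j|) ^ 4 * ∫ x, a j x := by
        rw [integral_const_mul, integral_finsetSum]
        · congr 1
          refine Finset.sum_congr rfl fun j _ => ?_
          rw [integral_const_mul, integral_sub_right_eq_self (a j)]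
        · intro j _
          exact ((hai j).comp_sub_right (K.y j)).const_mul _
    _ ≤ (K.J : ℝ) ^ 3 * ∑ j, (|K.c j| * Real.exp |K.y j|) ^ 4 *
          (Cj j * (δ ^ 8)⁻¹ * Real.log (1 / δ)) := by
        gcongr with j _
        exact hab j
    _ = ((K.J : ℝ) ^ 3 * (∑ j, (|K.c j| * Real.exp |K.y j|) ^ 4 * Cj j)) *
          ((δ ^ 8)⁻¹ * Real.log (1 / δ)) := by
        rw [mul_assoc, Finset.sum_mul]
        congr 1
        refine Finset.sum_congr rfl fun j _ => by ring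
    _ ≤ _ := by
        have : 0 ≤ (δ ^ 8)⁻¹ * Real.log (1 / δ) := by positivity
        nlinarith

theorem Cmb.hyp (hR : S_REP) (hWL : S_WL) (hKW : S_KW) (hPL : S_PL) (hF4 : S_F4)
    (hne : ∃ x : ℝ, K.F x ≠ 0) : ∃ c C δ0 : ℝ, Hyp K.R c C δ0 := by
  obtain ⟨c, δ1, hc, hδ1, hlo⟩ := K.psi_low hR hWL hne
  obtain ⟨C1, hC1, hup⟩ := K.psi_up hKW
  obtain ⟨C2, hC2, hsl⟩ := K.psi_sl hR hKW
  obtain ⟨C3, hC3, hfo⟩ := K.four hF4
  have hpi := Real.pi_gt_three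
  have h2pi : 0 < 2 * Real.pi := by positivity
  have hmin : min δ1 (1 / 10) ≤ 1 / 10 := min_le_right _ _
  have hmin1 : min δ1 (1 / 10) ≤ δ1 := min_le_left _ _
  have pl : ∀ δ : ℝ, 0 < δ → δ ≤ 1 / 10 → _ := fun δ h0 h1 =>
    hPL (K.psi δ) (fun x => ((GG K.R δ x : ℝ) : ℂ)) (K.psi_cont hR h0 (by linarith))
      (K.psi_int hR h0 (by linarith)) (K.psi_sq_int hR h0 (by linarith))
      (GG_rep K hR h0 (by linarith)) ((GG_int K hR h0 h1).ofReal)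
  have nsq : ∀ r : ℝ, ‖(r : ℂ)‖ ^ 2 = r ^ 2 := fun r => by
    rw [norm_real, Real.norm_eq_abs, sq_abs]
  have ioc : ∀ δ x H : ℝ, (∫ u in x..(x + H), ((GG K.R δ u : ℝ) : ℂ)) =
      ((∫ u in x..(x + H), GG K.R δ u : ℝ) : ℂ) := fun δ x H => intervalIntegral.integral_ofReal
  refine ⟨2 * Real.pi * c, 2 * Real.pi * C1 + 2 * Real.pi * C2 + C3, min δ1 (1 / 10),
    { cont := K.R_cont
      hc := by positivity
      hC := by positivity
      h0 := by positivity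
      h01 := hmin
      i1 := fun δ h0 h1 => GG_int K hR h0 (h1.trans hmin)
      i2 := fun δ h0 h1 => ?_
      i4 := fun δ h0 h1 => (hfo δ h0 (h1.trans hmin)).1
      lo := fun δ h0 h1 => ?_
      up := fun δ h0 h1 => ?_
      m4 := fun δ h0 h1 => ?_
      iI := fun δ H h0 h1 hH => ?_
      sl := fun δ H h0 h1 hH hH2 => ?_ }⟩
  · obtain ⟨h2, -, -⟩ := pl δ h0 (h1.trans hmin)
    simpa only [nsq] using h2
  · obtain ⟨-, h2, -⟩ := pl δ h0 (h1.trans hmin)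
    simp only [nsq] at h2
    rw [h2]
    have := hlo δ h0 (h1.trans hmin1)
    calc 2 * Real.pi * c * δ ^ (-(9 / 2) : ℝ) = 2 * Real.pi * (c * δ ^ (-(9 / 2) : ℝ)) := by ring
      _ ≤ _ := by gcongr
  · obtain ⟨-, h2, -⟩ := pl δ h0 (h1.trans hmin)
    simp only [nsq] at h2
    rw [h2]
    have := hup δ h0 (h1.trans hmin)
    have hp : 0 < δ ^ (-(9 / 2) : ℝ) := Real.rpow_pos_of_pos h0 _
    calc 2 * Real.pi * (∫ t, ‖K.psi δ t‖ ^ 2) ≤ 2 * Real.pi * (C1 * δ ^ (-(9 / 2) : ℝ)) := by gcongr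
      _ = (2 * Real.pi * C1) * δ ^ (-(9 / 2) : ℝ) := by ring
      _ ≤ _ := by
        gcongr
        have : 0 < 2 * Real.pi * C2 := by positivity
        linarith
  · refine (hfo δ h0 (h1.trans hmin)).2.trans ?_
    have hL : 0 ≤ Real.log (1 / δ) := Real.log_nonneg (by
      rw [le_div_iff₀ h0]; linarith [h1.trans hmin])
    have : 0 < 2 * Real.pi * C1 + 2 * Real.pi * C2 := by positivity
    gcongr
    linarith
  · obtain ⟨-, -, h2⟩ := pl δ h0 (h1.trans hmin)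
    have h3 := (h2 H (by linarith)).1
    simpa only [ioc, nsq] using h3
  · obtain ⟨-, -, h2⟩ := pl δ h0 (h1.trans hmin)
    have h3 := (h2 H (by linarith)).2
    simp only [ioc, nsq] at h3
    refine h3.trans ?_
    have h4 := hsl δ H h0 (h1.trans hmin) hH hH2
    have hp : 0 < δ ^ (-(9 / 2) : ℝ) := Real.rpow_pos_of_pos h0 _
    have hHp : 0 < H := by linarith
    calc 2 * Real.pi * (∫ t, ‖K.psi δ t‖ ^ 2 * min (H ^ 2) (4 / t ^ 2))
        ≤ 2 * Real.pi * (C2 * H * δ ^ (-(9 / 2) : ℝ)) := by gcongr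
      _ = (2 * Real.pi * C2) * H * δ ^ (-(9 / 2) : ℝ) := by ring
      _ ≤ _ := by
        gcongr
        have : 0 < 2 * Real.pi * C1 := by positivity
        linarith

end Pool.Agent.H474.RZ
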