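import Pool.Agent.H474.RZ.Asm2

/-! Project RZ, assembly, part 3: real zeros of odd order. -/

set_option autoImplicit false

open Complex MeasureTheory Filter Topology

namespace Pool.Agent.H474.RZ

variable (K : Cmb)

theorem Cmb.zeros (hR : S_REP) (hWL : S_WL) (hKW : S_KW) (hPL : S_PL) (hF4 : S_F4)
    (hFIN : S_FIN) (hODD : S_ODD) (hne : ∃ x : ℝ, K.F x ≠ 0) :
    ∃ κ : ℝ, 0 < κ ∧ ∀ᶠ T : ℝ in atTop, ∃ S : Finset ℝ,
      (∀ x ∈ S, 0 < x ∧ x ≤ T ∧ K.F x = 0 ∧ Odd (analyticOrderNatAt K.F (x : ℂ))) ∧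
      κ * T / Real.log T ^ 2 ≤ S.card := by
  obtain ⟨c, C, δ0, hyp⟩ := K.hyp hR hWL hKW hPL hF4 hne
  obtain ⟨κ, T0, hκ, h⟩ := hFIN K.R c C δ0 hyp
  refine ⟨κ, hκ, ?_⟩
  filter_upwards [eventually_ge_atTop T0] with T hT
  obtain ⟨m, a, b, hm, hab, hord⟩ := h T hT
  have hz : ∀ i, ∃ x : ℝ, a i < x ∧ x < b i ∧ K.F x = 0 ∧ Odd (analyticOrderNatAt K.F (x : ℂ)) := by
    intro i
    obtain ⟨h1, h2, h3, h4⟩ := hab i
    exact hODD K.F K.F_diff K.F_im (a i) (b i) h2 h4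
  choose x hx1 hx2 hx3 hx4 using hz
  have hinj : Function.Injective x := by
    intro i j hij
    by_contra hne
    rcases lt_or_gt_of_ne hne with h1 | h1
    · have := hord i j h1
      linarith [hx2 i, hx1 j]
    · have := hord j i h1
      linarith [hx2 j, hx1 i]
  classical
  refine ⟨Finset.univ.image x, ?_, ?_⟩
  · intro y hy
    obtain ⟨i, -, rfl⟩ := Finset.mem_image.1 hy
    obtain ⟨h1, h2, h3, h4⟩ := hab i
    exact ⟨by linarith [hx1 i], by linarith [hx2 i], hx3 i, hx4 i⟩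
  · rw [Finset.card_image_of_injective _ hinj, Finset.card_univ, Fintype.card_fin]
    exact hm

end Pool.Agent.H474.RZ
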