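import Pool.Graph.R_seed8.Helper242.KK.Kernel

/-!
# Project RZ (helper474, hard page MP_023270_nt): real zeros of `Ξ_λ`, `λ < 0`

For every `λ < 0` the function `Ξ_λ(z) = ∫ Φ(t) e^{λt²} e^{izt} dt` has at least `c T / (log T)²` real zeros of
odd order in `(0, T]` (the library knows: `o(T log T)` real zeros, almost all zeros are non-real).
Definitions and the statements of the tasks, with paper proofs.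

Notation: `μ = -λ > 0`, `0 < δ ≤ π/8`, `α = al δ = π/4 - δ`, `G_δ(x) = e^{αx} Ξ_λ(x)`.  The Fourier transform of `G_δ`
is `PhC(t + iα) e^{-μ(t+iα)²}`, where `PhC` is the analytic continuation of the kernel.
-/

set_option autoImplicit false

open Complex MeasureTheory Filter Topology

namespace Pool.Agent.H474.RZ

/-- The analytic continuation of the kernel `Φ` to the strip `|Im z| < π/4`: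
`PhC z = 2 * RK.PhiC (z/2)`, `RK.PhiC t = exp t * g (π exp (4t))`, `g s = 2 s² P₂(s) - 3 s P₁(s)`,
so `PhC z = 2 exp(z/2) g(π exp(2z))`.  (Library: `Pool.Graph.R_seed8.Helper242.RK.Theta`, `...KK.Kernel`;
evenness `RK.PhiC_even`, `RK.differentiableAt_PhiC`, `RK.PhiC_bound`, `RK.conj_P`.) -/
noncomputable abbrev PhC : ℂ → ℂ := Pool.Agent.Helper242.KK.PhC

/-- `XiM μ z = ∫ Φ(t) e^{-μt²} e^{izt} dt = Ξ_{-μ}(z)` (library). -/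
noncomputable abbrev XiM : ℝ → ℂ → ℂ := Pool.Agent.Helper242.KK.XiM

/-- `Pk k s = ∑_{n ≥ 0} (n+1)^{2k} exp(-(n+1)² s)` (library `RK.P`). -/
noncomputable abbrev Pk : ℕ → ℂ → ℂ := Pool.Agent.Helper242.RK.P

/-- `al δ = π/4 - δ` -/
noncomputable def al (δ : ℝ) : ℝ := Real.pi / 4 - δ

/-- the diagonal sums `∑_{n ≥ 1} n^p e^{-n² x}` -/
noncomputable def Dg (p x : ℝ) : ℝ := ∑' n : ℕ, ((n : ℝ) + 1) ^ p * Real.exp (-(((n : ℝ) + 1) ^ 2 * x))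

/-- `hh w = (w-1) Γ(1+w/2) π^{-w/2}`, so `ξ(w) = hh(w) ζ(w)` -/
noncomputable def hh (w : ℂ) : ℂ :=
  (w - 1) * Complex.Gamma (1 + w / 2) * cexp (-(w / 2) * ((Real.log Real.pi : ℝ) : ℂ))

/-- the block `D M s = ∑_{M ≤ n < 2M} n^{-s}` -/
noncomputable def DD (M : ℕ) (s : ℂ) : ℂ :=
  ∑ n ∈ Finset.Ico M (2 * M), cexp (-(s * ((Real.log n : ℝ) : ℂ)))

/-- TASK SUM.  Sums `∑ n^p e^{-n²x}`.
Proof. (1) `n^p e^{-n²x} = x^{-p/2} (n²x)^{p/2} e^{-n²x} ≤ C_p x^{-p/2} e^{-n²x/2}` and `∑_{n≥1} e^{-n²x/2} ≤ C x^{-1/2}` for all `x > 0`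
(`e^{-u} ≤ 1/u` for all terms if `x ≥ 1`; for `x < 1` the at most `x^{-1/2}+1` terms with `n ≤ x^{-1/2}+1` are `≤ 1`, the others
`≤ 2/(n²x)`, with sum `≤ C x^{-1/2}`; or compare with `∫_0^∞ e^{-u²x/2} du`).  Summability: `summable_pow_mul_exp_neg_nat_mul` etc.
(2) for `0 < x ≤ 10`: the terms with `m ≤ n < 2m`, `m = ⌈x^{-1/2}⌉`: there are `m`, each is `≥ m^8 e^{-4m²x}`, `x^{-1/2} ≤ m ≤ x^{-1/2}+1`. -/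
def S_SUM : Prop :=
  (∀ p : ℝ, 0 ≤ p → ∃ C : ℝ, 0 < C ∧ ∀ x : ℝ, 0 < x →
    Summable (fun n : ℕ => ((n : ℝ) + 1) ^ p * Real.exp (-(((n : ℝ) + 1) ^ 2 * x))) ∧
      Dg p x ≤ C * x ^ (-((p + 1) / 2))) ∧
  (∃ c : ℝ, 0 < c ∧ ∀ x : ℝ, 0 < x → x ≤ 10 → c * x ^ (-(9 / 2) : ℝ) ≤ Dg 8 x)

/-- TASK MV.  The mean square of the theta series on a segment of the ray through `θ + iσ`.
Proof.  `‖P_k(πv(θ+iσ))‖² = ∑_{n,m ≥ 1} n^{2k} m^{2k} exp(-π(n²+m²)θv - iπ(n²-m²)σv)` (absolutely convergent, uniformly on `[v0, v1]`).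
Diagonal: between `(v1-v0) Dg (4k) (2πθv1)` and `(v1-v0) Dg (4k) (2πθv0)`.
Off the diagonal `|∫_{v0}^{v1} e^{-Kv} dv| ≤ 2 e^{-Re K v0}/|K|`, `|K| ≥ πσ|n²-m²| ≥ (π/2)|n²-m²|`, so the off-diagonal part is at most
`(4/π) ∑_{n≠m} n^{2k} m^{2k} e^{-π(n²+m²)θv0}/|n²-m²| ≤ (4/π) ∑_n n^{4k} e^{-2πn²θv0} ∑_{m≠n} 1/|n²-m²|` (by `2ab ≤ a²+b²` and symmetry) and
`|n²-m²| = |n-m|(n+m) ≥ |n-m|^{3/2} n^{1/2}`, so `∑_{m≠n} 1/|n²-m²| ≤ 2 ζ(3/2) n^{-1/2}`.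
(Finite sums `n ≤ N` first, then `N → ∞` by uniform convergence, or directly with `hasSum_integral_of_summable_integral_norm`.) -/
def S_MV : Prop := ∃ C : ℝ, 0 < C ∧ ∀ (k : ℕ) (θ σ v0 v1 : ℝ), 0 < θ → 1 / 2 ≤ σ → 0 < v0 → v0 ≤ v1 →
  (v1 - v0) * Dg (4 * k) (2 * Real.pi * θ * v1) - C * Dg (4 * k - 1 / 2) (2 * Real.pi * θ * v0) ≤
      (∫ v in v0..v1, ‖Pk k ((Real.pi * v : ℝ) * ((θ : ℂ) + σ * I))‖ ^ 2) ∧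
    (∫ v in v0..v1, ‖Pk k ((Real.pi * v : ℝ) * ((θ : ℂ) + σ * I))‖ ^ 2) ≤
      (v1 - v0) * Dg (4 * k) (2 * Real.pi * θ * v0) + C * Dg (4 * k - 1 / 2) (2 * Real.pi * θ * v0)

/-- upper bound of the mean square of the kernel in windows -/
def S_WU : Prop := ∃ C : ℝ, 0 < C ∧ ∀ δ t0 η : ℝ, 0 < δ → δ ≤ Real.pi / 8 → 0 < η → η ≤ 1 →
  (∫ t in t0..(t0 + η), ‖PhC (t + al δ * I)‖ ^ 2) ≤
    C * (η * δ ^ (-(9 / 2) : ℝ) + δ ^ (-(17 / 4) : ℝ))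

/-- lower bound of the mean square of the kernel in windows -/
def S_WL : Prop := ∀ t0 η : ℝ, 0 < η → ∃ c δ0 : ℝ, 0 < c ∧ 0 < δ0 ∧ ∀ δ : ℝ, 0 < δ → δ ≤ δ0 →
  c * δ ^ (-(9 / 2) : ℝ) ≤ ∫ t in t0..(t0 + η), ‖PhC (t + al δ * I)‖ ^ 2

/-- TASK WIN.  `S_SUM → S_MV → S_WU ∧ S_WL`.
Proof.  `‖PhC(-t+iα)‖ = ‖PhC(t+iα)‖` (even and real), so it is enough to treat `t0 ≥ 0` (split the window at `0`).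
`v = e^{2t}`, `dt = dv/(2v)`; with `θ = cos 2α = sin 2δ ∈ [4δ/π, 2δ]`, `σ = sin 2α = cos 2δ ≥ 1/2`, `s = πv(θ+iσ)`, `‖s‖ = πv`:
`‖PhC(t+iα)‖² = 4 e^t ‖g(s)‖²`, `e^t = v^{1/2}`, `‖g(s)‖² ≤ 8‖s‖⁴‖P₂(s)‖² + 18‖s‖²‖P₁(s)‖²` and `≥ 2‖s‖⁴‖P₂(s)‖² - 9‖s‖²‖P₁(s)‖²`.
So the upper bound is `≤ 16π⁴ v1^{7/2} ∫_{v0}^{v1} ‖P₂‖² dv + 36π² v1^{3/2} ∫_{v0}^{v1} ‖P₁‖² dv`, `v1 = e^{2η} v0 ≤ e² v0`, `v1 - v0 ≤ 2e²η v0`, `v0 ≥ 1`, and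
`S_MV`, `S_SUM` give `∫‖P₂‖² ≤ C(ηv0 (θv0)^{-9/2} + (θv0)^{-17/4})`, `∫‖P₁‖² ≤ C(ηv0 (θv0)^{-5/2} + (θv0)^{-9/4})`.
Lower bound (fixed `t0 ≥ 0`, `η`): `≥ 4π⁴ v0^{7/2} ∫‖P₂‖² - 18π² v1^{3/2} ∫‖P₁‖²`,
`∫‖P₂‖² ≥ (v1-v0) Dg 8 (2πθv1) - C Dg (15/2) (2πθv0) ≥ cθ^{-9/2} - Cθ^{-17/4}`, and `∫‖P₁‖² ≤ Cθ^{-5/2}`. -/
def S_WIN : Prop := S_SUM → S_MV → S_WU ∧ S_WL

/-- TASK REP.  The Fourier transform of `G_δ`.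
Proof.  `PhC` is differentiable in `|Im z| < π/4` with `‖PhC z‖ ≤ A exp(9|Re z|/2 - π cos(2α) exp(2|Re z|))` for `|Im z| ≤ α` (`RK.PhiC_bound`).
Shift the line of integration of `H(z) = PhC(z) e^{-μz²} e^{ixz}` from `Im z = 0` to `Im z = α` (library `Pool.Agent.Helper242.KK.shift_line`,
in `Pool.Graph.R_seed8.Helper242.KK.ShiftLine`): `XiM μ x = ∫ H(t) dt = ∫ H(t+iα) dt` and `e^{ix(t+iα)} = e^{-αx} e^{ixt}`. -/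
def S_REP : Prop := ∀ μ δ : ℝ, 0 ≤ μ → 0 < δ → δ ≤ Real.pi / 4 →
  Continuous (fun t : ℝ => PhC (t + al δ * I)) ∧
  (∃ C : ℝ, ∀ t : ℝ, ‖PhC (t + al δ * I)‖ ≤ C * Real.exp (-t ^ 2)) ∧
  ∀ x : ℝ, (Real.exp (al δ * x) : ℂ) * XiM μ x =
    ∫ t : ℝ, PhC (t + al δ * I) * cexp (-(μ : ℂ) * (t + al δ * I) ^ 2) * cexp (I * x * t)

/-- TASK PL.  Plancherel, and the version for the sliding integrals.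
Proof.  `g(x) = 𝓕ψ(-x/2π)`; Fourier inversion for `ψ` continuous and integrable with integrable transform, and
`∫ g conj(g) = ∫ ψ(t) conj(∫ g(x) e^{-ixt} dx) dt = 2π ∫ ψ conj(ψ)` by Fubini (`g` is bounded and integrable, so `‖g‖²` is integrable).
Sliding: `g_H(x) = ∫_x^{x+H} g(u) du = ∫ ψ_H(t) e^{ixt} dt`, `ψ_H(t) = ψ(t) (e^{iHt}-1)/(it)` (`= H ψ(0)` at `t = 0`, i.e.
`ψ_H(t) = ψ(t) ∫_0^H e^{iut} du`), continuous, integrable, `‖ψ_H(t)‖² ≤ ‖ψ(t)‖² min(H², 4/t²)` for `t ≠ 0`; `g_H` is integrable. -/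
def S_PL : Prop := ∀ (ψ g : ℝ → ℂ), Continuous ψ → Integrable ψ → Integrable (fun t => ‖ψ t‖ ^ 2) →
  (∀ x : ℝ, g x = ∫ t : ℝ, ψ t * cexp (I * x * t)) → Integrable g →
    Integrable (fun x => ‖g x‖ ^ 2) ∧ (∫ x : ℝ, ‖g x‖ ^ 2) = 2 * Real.pi * ∫ t : ℝ, ‖ψ t‖ ^ 2 ∧
    ∀ H : ℝ, 0 < H → Integrable (fun x : ℝ => ‖∫ u in x..(x + H), g u‖ ^ 2) ∧
      (∫ x : ℝ, ‖∫ u in x..(x + H), g u‖ ^ 2) ≤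
        2 * Real.pi * ∫ t : ℝ, ‖ψ t‖ ^ 2 * min (H ^ 2) (4 / t ^ 2)

/-- TASK GAM.  Upper bounds of the Gamma factor on the lines `Re w = 3/2` and `Re w = -1/2`.
Proof.  `|Γ(7/4 + ix/2)| ≤ C (1+|x|)^{5/4} e^{-π|x|/4}` and `|Γ(3/4 + ix/2)| ≤ C (1+|x|)^{1/4} e^{-π|x|/4}` (Stirling; many versions in the
library: search libmod for Gamma bounds; or `|Γ(3/4+iy)Γ(1/4-iy)|`... by log-convexity from `|Γ(1/2+iy)|² = π/cosh πy`,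
`|Γ(1+iy)|² = πy/sinh πy` and Hoelder `|Γ|` in vertical strips). -/
def S_GAM : Prop := ∃ C : ℝ, 0 < C ∧ ∀ x : ℝ,
  ‖hh (3 / 2 + I * x)‖ ≤ C * (1 + |x|) ^ (9 / 4 : ℝ) * Real.exp (-(Real.pi / 4 * |x|)) ∧
  ‖hh (-(1 / 2) + I * x)‖ ≤ C * (1 + |x|) ^ (5 / 4 : ℝ) * Real.exp (-(Real.pi / 4 * |x|))

/-- TASK M4.  The fourth moment of a block.
Proof.  `D(s)² = ∑_k d_M(k) k^{-s}`, `d_M(k) = #{(m,n) : mn = k, M ≤ m, n < 2M}`, `M² ≤ k < 4M²`.  Mean value theorem for Dirichlet polynomials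
(Montgomery-Vaughan or the elementary version with a Fejer/Gaussian majorant, in the library many times; see e.g.
`Pool.Agent.Helper242.KK.mean_square` in `Pool.Graph.R_seed8.Helper242.KK.MeanSq`: exact formula with Gaussian weight; the numbers `log k`,
`k < 4M²`, are `1/(4M²)`-separated): `∫_{-X}^X ‖∑_{k<4M²} a_k k^{-ix}‖² dx ≤ C (X + M²) ∑ |a_k|²`, and
`∑_k d_M(k)² = #{(a,b,c,d) ∈ [M,2M)^4 : ab = cd} ≤ C M² (1 + log M)` (for given `a, c`, with `g = gcd(a,c)`: `b` is a multiple of `c/g`, `b < 2M`: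
at most `2Mg/c ≤ 2g` choices (c ≥ M), `d` is determined; `∑_{a,c} gcd(a,c) ≤ ∑_{g<2M} g (2M/g)² = 4M² ∑ 1/g`). -/
def S_M4 : Prop := ∃ C : ℝ, 0 < C ∧ ∀ (M : ℕ) (X : ℝ), 1 ≤ M → 1 ≤ X →
  (∫ x in (-X)..X, ‖DD M (3 / 2 + I * x)‖ ^ 4) ≤ C * (X + (M : ℝ) ^ 2) * ((M : ℝ) ^ 4)⁻¹ * (1 + Real.log M) ∧
  (∫ x in (-X)..X, ‖DD M (-(1 / 2) + I * x)‖ ^ 4) ≤ C * (X + (M : ℝ) ^ 2) * (M : ℝ) ^ 4 * (1 + Real.log M)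

/-- the fourth power of the block function on the line `Re w = σ` -/
noncomputable def B4 (σ δ : ℝ) (M : ℕ) (x : ℝ) : ℝ :=
  (Real.exp (al δ * x) * ‖hh (σ + I * x) * DD M (σ + I * x)‖) ^ 4

/-- the bounds of the block integrals -/
def S_B4 : Prop := ∃ C : ℝ, 0 < C ∧ ∀ (M : ℕ) (δ : ℝ), 1 ≤ M → 0 < δ → δ ≤ Real.pi / 8 →
  (Integrable (B4 (3 / 2) δ M) ∧ Integrable (B4 (-(1 / 2)) δ M)) ∧
  (1 ≤ (M : ℝ) ^ 2 * δ → (∫ x, B4 (3 / 2) δ M x) ≤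
    C * (δ ^ 8)⁻¹ * ((M : ℝ) ^ 2 * δ)⁻¹ * (1 + Real.log M)) ∧
  ((M : ℝ) ^ 2 * δ ≤ 1 → (∫ x, B4 (-(1 / 2)) δ M x) ≤
    C * (δ ^ 8)⁻¹ * ((M : ℝ) ^ 2 * δ) ^ 2 * (1 + Real.log M))

/-- TASK BLK.  `S_GAM → S_M4 → S_B4`.
Proof.  `e^{4αx} e^{-π|x|} ≤ e^{-4δ|x|}` for all real `x`.  So `B4 σ δ M x ≤ C (1+|x|)^p e^{-4δ|x|} ‖D(σ+ix)‖⁴`, `p = 9` (`σ = 3/2`), `p = 5` (`σ = -1/2`).
Split `ℝ` into `|x| ≤ 1/δ` and `2^i/δ ≤ |x| ≤ 2^{i+1}/δ`: `∫ ≤ C ∑_i (2^{i+1}/δ)^p 2^p e^{-4·2^i} (2^{i+1}/δ + M²) M^{∓4} (1+log M) + C δ^{-p}(1/δ + M²)...`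
`≤ C δ^{-p} (1/δ + M²) M^{∓4} (1+log M)`.  For `σ = 3/2`, `M²δ ≥ 1`: `δ^{-9}·2M²·M^{-4} = 2δ^{-8}(M²δ)^{-1}`; for `σ = -1/2`, `M²δ ≤ 1`:
`δ^{-5}·2δ^{-1}·M⁴ = 2δ^{-8}(M²δ)²`.  (Alternatively integrate by parts against the monotone weight.) -/
def S_BLK : Prop := S_GAM → S_M4 → S_B4

/-- TASK HREP.  `Ξ_{-μ}` as the sum of its blocks, each on a line of our choice.
Proof.  Let `φ(u) = 2(2π²e^{9u/2} - 3πe^{5u/2}) e^{-πe^{2u}}`; then `Φ(t) = ∑_{n≥1} n^{-1/2} φ(t + log n)` (library `Ph`: `KK.Ph t = 2 RK.Phi (t/2)`) and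
`∫ φ(u) e^{(w-1/2)u} du = hh(w)` for `Re w > -2` (Gamma integral, `2(2π²·½π^{-s'}Γ(s') ...)`, `s' = w/2+2` and `w/2+1`:
`2π² π^{-(w/2+2)} Γ(w/2+2) - 3π π^{-(w/2+1)} Γ(w/2+1) = π^{-w/2} Γ(w/2+1) (w + 2 - 3)`).  The sum `∑_n n^{-1/2} ∫ |φ(t+log n)| e^{-μt²} dt`
converges, so `XiM μ x = ∑_n T_n`, `T_n = n^{-1/2-ix} ∫ φ(u) e^{-μ(u-log n)²} e^{ixu} du`.  For real `a` and `v = u - log n`:
`e^{-μv²} = (4πμ)^{-1/2} e^{-av} ∫ e^{-(y-ia)²/(4μ)} e^{-iyv} dy` (Gaussian integral), so by Fubini (`a = ±1`)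
`T_n = (4πμ)^{-1/2} ∫ e^{-(y-ia)²/(4μ)} hh(1/2-a+i(x-y)) n^{-(1/2-a+i(x-y))} dy`; sum over the block `2^j ≤ n < 2^{j+1}`. -/
def S_HREP : Prop := ∀ μ x : ℝ, 0 < μ → ∃ A : ℕ → ℂ, HasSum A (XiM μ x) ∧ ∀ (j : ℕ) (a : ℝ), a = 1 ∨ a = -1 →
  Integrable (fun y : ℝ => cexp (-((y : ℂ) - I * a) ^ 2 / (4 * μ)) *
      (hh (1 / 2 - a + I * (x - y)) * DD (2 ^ j) (1 / 2 - a + I * (x - y)))) ∧
  A j = (Real.sqrt (4 * Real.pi * μ) : ℂ)⁻¹ * ∫ y : ℝ, cexp (-((y : ℂ) - I * a) ^ 2 / (4 * μ)) *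
      (hh (1 / 2 - a + I * (x - y)) * DD (2 ^ j) (1 / 2 - a + I * (x - y)))

/-- The fourth power mean of `G_δ`. -/
def S_F4 : Prop := ∀ μ : ℝ, 0 < μ → ∃ C : ℝ, 0 < C ∧ ∀ δ : ℝ, 0 < δ → δ ≤ 1 / 10 →
  Integrable (fun x : ℝ => (Real.exp (al δ * x) * ‖XiM μ x‖) ^ 4) ∧
  (∫ x : ℝ, (Real.exp (al δ * x) * ‖XiM μ x‖) ^ 4) ≤ C * (δ ^ 8)⁻¹ * Real.log (1 / δ)

/-- TASK FOUR.  `S_B4 → S_HREP → S_F4`.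
Proof.  `‖e^{-(y-ia)²/(4μ)}‖ = e^{1/(4μ)} e^{-y²/(4μ)}`.  With `a = 1` (line `-1/2`) for the blocks `M = 2^j` with `M²δ ≤ 1` and `a = -1` (line `3/2`) for the
others: `e^{αx} ‖A_j(x)‖ ≤ C_μ ∫ e^{-y²/(4μ) + α|y|} b_j(x-y) dy`, `b_j(x) = e^{αx} ‖hh D‖(σ_j+ix)`, `b_j⁴ = B4 σ_j δ M`.  By Jensen/Hoelder and Fubini
`‖e^{αx} A_j‖_4 ≤ C_μ ‖b_j‖_4 ≤ C δ^{-2} (M²δ)^{1/2} (1+j)^{1/4}` resp. `≤ C δ^{-2} (M²δ)^{-1/4} (1+j)^{1/4}`.  Sum over `j` (Minkowski, or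
`(∑ a_j)⁴ ≤ (∑ w_j)³ ∑ a_j⁴/w_j³` with geometric weights `w_j = 2^{-|2j - log₂(1/δ)|/8}`): the sums over `2j ≤ log₂(1/δ)` and `2j > log₂(1/δ)` are
geometric, `∑_j ‖A_j‖_4 ≤ C δ^{-2} (log(1/δ))^{1/4}`.  (`lintegral`/`eLpNorm` may be convenient.) -/
def S_FOUR : Prop := S_B4 → S_HREP → S_F4

/-- TASK ODD.  A change of sign of a real entire function gives a zero of odd order.
Proof.  `f ≢ 0`, so the zeros in `[a,b]` are isolated, hence finitely many; if all had even order, `f` would not change sign at any of them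
(near a zero `x₀` of order `2m`, `f(x) = (x-x₀)^{2m} g(x)`, `g(x₀) ≠ 0` real), so `f` would keep its sign on `[a,b]`
(e.g. consider the supremum of the `x ∈ [a,b]` with `f ≥ 0` on `[a,x]`...). -/
def S_ODD : Prop := ∀ f : ℂ → ℂ, Differentiable ℂ f → (∀ x : ℝ, (f x).im = 0) → ∀ a b : ℝ, a < b →
  (f a).re * (f b).re < 0 → ∃ x : ℝ, a < x ∧ x < b ∧ f x = 0 ∧ Odd (analyticOrderNatAt f (x : ℂ))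

/-- the weighted function `e^{(π/4-δ)x} F(x)` -/
noncomputable def GG (F : ℝ → ℝ) (δ x : ℝ) : ℝ := Real.exp (al δ * x) * F x

/-- the hypotheses of the real variable argument -/
structure Hyp (F : ℝ → ℝ) (c C δ0 : ℝ) : Prop where
  cont : Continuous F
  hc : 0 < c
  hC : 0 < C
  h0 : 0 < δ0
  h01 : δ0 ≤ 1 / 10
  i1 : ∀ δ, 0 < δ → δ ≤ δ0 → Integrable (GG F δ)
  i2 : ∀ δ, 0 < δ → δ ≤ δ0 → Integrable (fun x => GG F δ x ^ 2)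
  i4 : ∀ δ, 0 < δ → δ ≤ δ0 → Integrable (fun x => GG F δ x ^ 4)
  lo : ∀ δ, 0 < δ → δ ≤ δ0 → c * δ ^ (-(9 / 2) : ℝ) ≤ ∫ x, GG F δ x ^ 2
  up : ∀ δ, 0 < δ → δ ≤ δ0 → (∫ x, GG F δ x ^ 2) ≤ C * δ ^ (-(9 / 2) : ℝ)
  m4 : ∀ δ, 0 < δ → δ ≤ δ0 → (∫ x, GG F δ x ^ 4) ≤ C * (δ ^ 8)⁻¹ * Real.log (1 / δ)
  iI : ∀ δ H, 0 < δ → δ ≤ δ0 → 1 ≤ H → Integrable (fun x => (∫ u in x..(x + H), GG F δ u) ^ 2)
  sl : ∀ δ H, 0 < δ → δ ≤ δ0 → 1 ≤ H → H ≤ δ ^ (-(1 / 4) : ℝ) →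
    (∫ x, (∫ u in x..(x + H), GG F δ u) ^ 2) ≤ C * H * δ ^ (-(9 / 2) : ℝ)

/-- TASK FIN.  The real variable argument (Hardy-Littlewood).
Proof.  `L = log(1/δ)`, `G = GG F δ`.  (1) For `x < 0`: `|G_δ(x)| ≤ |G_{δ0}(x)|`, so `∫_{x<0} G² ≤ C_0`; `∫_{x>K/δ} G_δ² = ∫_{x>K/δ} e^{-δx} G_{δ/2}²
≤ e^{-K} C 2^{9/2} δ^{-9/2}`.  So for a constant `K` and small `δ`: `∫_0^X G² ≥ (c/2) δ^{-9/2}`, `X = K/δ`.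
(2) Hoelder: `∫_0^X |G| ≥ (∫_0^X G²)^{3/2}/(∫ G⁴)^{1/2} ≥ c₁ δ^{-11/4} L^{-1/2}`.
(3) `H = C₁ L`, `M = ⌈X/H⌉`, `B_i = [iH, (i+1)H)`, `i < M`.  `i` is good if `F ≥ 0` or `F ≤ 0` on `[iH, (i+2)H]`; then for `x ∈ B_i`
`|∫_x^{x+H} G| = ∫_x^{x+H} |G|`.  `J(x) = ∫_x^{x+H} |G|`: `∫_0^{MH} J ≥ H ∫_H^{MH} |G| ≥ H (∫_0^X |G| - H^{1/2} ‖G‖₂) ≥ (c₁/2) H δ^{-11/4} L^{-1/2}`;
the good `B_i` contribute at most `∫_0^{MH} |I| ≤ (MH)^{1/2} ‖I‖₂ ≤ (2K/δ)^{1/2} (C H δ^{-9/2})^{1/2} = (2KCH)^{1/2} δ^{-11/4} ≤ (c₁/4) H δ^{-11/4} L^{-1/2}` if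
`C₁ ≥ 32KC/c₁²`; the bad ones at most `∑_{bad} H ∫_{iH}^{(i+2)H} |G| ≤ 2H (2H·#bad)^{1/2} ‖G‖₂ ≤ 2H (2H·#bad)^{1/2} C^{1/2} δ^{-9/4}`.
Hence `#bad ≥ c₃ δ^{-1} L^{-2}`.  (4) Given `T`, take `δ = 2K/T`, so `(M+1)H ≤ X + 2H ≤ T`; in the open interval `(iH, (i+2)H)` of a bad `i` the function
`F` takes both signs (continuity); take the bad `i` of one parity. -/
def S_FIN : Prop := ∀ (F : ℝ → ℝ) (c C δ0 : ℝ), Hyp F c C δ0 → ∃ κ T0 : ℝ, 0 < κ ∧ ∀ T : ℝ, T0 ≤ T →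
  ∃ (m : ℕ) (a b : Fin m → ℝ), κ * T / Real.log T ^ 2 ≤ m ∧
    (∀ i, 0 < a i ∧ a i < b i ∧ b i ≤ T ∧ F (a i) * F (b i) < 0) ∧ ∀ i j, i < j → b i ≤ a j

end Pool.Agent.H474.RZ
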