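import Pool.Graph.R_seed8.Helper242.KK.Kernel
import Pool.Graph.R_seed8.Helper242.KK.FTa

/-!
# Project RZ (helper474): the last small statement, linear independence
-/

set_option autoImplicit false

open Complex MeasureTheory Filter Topology

namespace Pool.Agent.H474.RZ

/-- TASK NZ.  Finite combinations of `Ξ_{-μ_j}(z - y_j)`, `μ_j > 0`, with distinct pairs `(μ_j, y_j)` and not all coefficients
zero, are not identically zero on the real line.
Proof.  Suppose the sum vanishes at all real `x`.
(1) `XiM μ z = ∫ t, (wk μ t : ℂ) * cexp (I z t)`, `wk μ t = Ph t * exp (-μ t²)` (definitions, `KK.Kernel`, `KK.Defs`), so with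
`m(z) = ∑_j c_j exp(-μ_j z²) exp(-i y_j z)` (an entire function) and `f(t) = Ph(t) m(t)` (`t` real; continuous and integrable, because
`|f| ≤ ∑ |c_j| wk μ_j`; `integrable_FT` at `z = 0`) we get `∫ f(t) e^{ixt} dt = 0` for all real `x`, i.e. the Fourier transform
`𝓕 f` is identically `0` (rescale `x = -2πw`).  By Fourier inversion for a continuous integrable function with integrable
Fourier transform (`Continuous.fourierInv_fourier_eq` or the present Mathlib name) `f = 0`.  As `Ph t > 0` (`Ph_pos`), `m(t) = 0` for all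
real `t`, and by the identity theorem (`AnalyticOnNhd.eq_of_frequently_eq` or `eqOn_of_preconnected_of_frequently_eq`; `m` is
differentiable on `ℂ`, hence analytic) `m = 0` on `ℂ`.
(2) Among the `j` with `c_j ≠ 0` choose `j₀` maximal for the lexicographic order of `(μ_j, y_j)` (`Finset.exists_max_image` with
`toLex (mu j, y j)`).  For real `s → +∞`, `m(is) exp(-μ_{j₀} s² - y_{j₀} s) = ∑_j c_j exp((μ_j - μ_{j₀}) s² + (y_j - y_{j₀}) s)`
(as `-μ (is)² = μ s²`, `-i y (i s) = y s`).  Each term with `j ≠ j₀`, `c_j ≠ 0` tends to `0` (either `μ_j < μ_{j₀}`, or `μ_j = μ_{j₀}` and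
`y_j < y_{j₀}` by injectivity), so the sum tends to `c_{j₀} ≠ 0`; but it is `0`.  Contradiction. -/
def S_NZ : Prop :=
  ∀ (J : ℕ) (c mu y : Fin J → ℝ), (∀ j, 0 < mu j) →
    Function.Injective (fun j => (mu j, y j)) → (∃ j, c j ≠ 0) →
    ∃ x : ℝ, ∑ j, ((c j : ℝ) : ℂ) * Pool.Agent.Helper242.KK.XiM (mu j) ((x : ℂ) - ((y j : ℝ) : ℂ)) ≠ 0

end Pool.Agent.H474.RZ
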